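import Pool.Agent.Helper66.FT.Defs

/-!
Local Lindblad dynamics on the torus in which each site is active only for a short time.
-/

set_option autoImplicit false
set_option linter.unusedSectionVars false

open scoped BigOperators Matrix ComplexConjugate ComplexOrder
open Finset Pool.Agent.TH235.PP Pool.Agent.Results.MP_953b23_mp.OverlapBoosting
  Pool.Agent.Helper99.PE Pool.Agent.Helper66.FD Pool.Agent.Helper66.FT

namespace Pool.Agent.Helper66.FS

/-- `Schedule R m T τ X Y`: the operator `X` evolves to `Y` in time `T` under a local Lindblad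
dynamics of range `R` which is piecewise constant in time, with `m` pieces. In each piece only the
sites of a set `A` are active: the Hamiltonian and the jump operators of the boxes at the other sites
vanish. `τ u` is the total length of the pieces in which the site `u` is active. -/
inductive Schedule {d L : ℕ} [NeZero L] (R : ℕ) :
    ℕ → ℝ → (Site L → ℝ) → TorOp d L → TorOp d L → Prop
  | refl (X : TorOp d L) : Schedule R 0 0 (fun _ => 0) X X
  | step {m : ℕ} {T : ℝ} {τ : Site L → ℝ} {X Y Z : TorOp d L} (q : ℕ) (H : Site L → BoxOp d R)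
      (K : Site L → Fin q → BoxOp d R) (A : Finset (Site L)) (s : ℝ) :
      Schedule R m T τ X Y → Admissible H K → (∀ u, u ∉ A → H u = 0 ∧ ∀ i, K u i = 0) → 0 ≤ s →
      vec Z = NormedSpace.exp ((s : ℂ) • generator H K) *ᵥ vec Y →
      Schedule R (m + 1) (T + s) (fun u => τ u + if u ∈ A then s else 0) X Z

/-- For all large `L` a local Lindblad dynamics, of range at most `C (log L)^j`, piecewise constant in
time with at most `exp (C (log L)^k)` pieces, drives the pure state of `χ L` in time at most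
`exp (C (log L)^k)`, during which each site is active for a time at most `C (log L)^k`, to a state
`ρ` whose fidelity `⟨Θ L, ρ (Θ L)⟩` with `Θ L` is at least `exp (-C (log L)^k)`. -/
def LocallyDriven {d : ℕ} (χ Θ : ∀ L : ℕ, (Site L → Fin d) → ℂ) (j k : ℕ) (C : ℝ) : Prop :=
  ∃ L₀ : ℕ, ∀ (L : ℕ) [NeZero L], L₀ ≤ L → ∃ (R m : ℕ) (T : ℝ) (τ : Site L → ℝ) (ρ : TorOp d L),
    0 < R ∧ (R : ℝ) ≤ C * Real.log L ^ j ∧ (m : ℝ) ≤ Real.exp (C * Real.log L ^ k) ∧
      T ≤ Real.exp (C * Real.log L ^ k) ∧ (∀ u, τ u ≤ C * Real.log L ^ k) ∧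
      Schedule R m T τ (Matrix.vecMulVec (χ L) (star (χ L))) ρ ∧
      Real.exp (-(C * Real.log L ^ k)) ≤ ‖ip (Θ L) (ρ *ᵥ Θ L)‖

/-- a fast dynamics, with all sites active all the time -/
theorem Schedule.of_evolution {d L : ℕ} [NeZero L] {R m : ℕ} {T : ℝ} {X Y : TorOp d L}
    (h : FT.Evolution R m T X Y) : Schedule R m T (fun _ => T) X Y := by
  induction h with
  | refl X => exact Schedule.refl X
  | @step m T X Y Z q H K s _ hA hs hZ ih =>
    have h1 := Schedule.step q H K univ s ih hA (fun u hu => absurd (mem_univ u) hu) hs hZ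
    simpa using h1

/-- fast dynamics are dynamics with short local times -/
theorem locallyDriven_of_fastlyDriven {d : ℕ} {χ Θ : ∀ L : ℕ, (Site L → Fin d) → ℂ} {j k : ℕ}
    {C : ℝ} (h : FastlyDriven χ Θ j k C) : LocallyDriven χ Θ j k C := by
  obtain ⟨L₀, hL₀⟩ := h
  refine ⟨L₀, fun L _ hL => ?_⟩
  obtain ⟨R, m, T, ρ, h1, h2, h3, h4, h5, h6⟩ := hL₀ L hL
  exact ⟨R, m, T, fun _ => T, ρ, h1, h2, h3,
    h4.trans (by linarith [Real.add_one_le_exp (C * Real.log L ^ k)]), fun _ => h4,
    Schedule.of_evolution h5, h6⟩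

end Pool.Agent.Helper66.FS
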