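import Pool.Agent.Helper66.FT.Trunc

/-!
The truncated expansion if the terms are active only for a short time each.
-/

set_option autoImplicit false
set_option linter.unusedSectionVars false

open scoped BigOperators
open Finset Pool.Agent.TH235.PP Pool.Agent.Helper66.FT

namespace Pool.Agent.Helper66.FS

section norm

variable {R : Type*} [NormedRing R] [NormOneClass R] {M N : ℕ}

lemma slice_bound' (y : Fin N → R) (y0 g : ℝ) (hy0 : 0 ≤ y0) (hy : ∀ b, ‖y b‖ ≤ y0)
    (hG : ‖1 + ∑ b, y b‖ ≤ g) (hg : 1 / 2 ≤ g) (hN : N * y0 ≤ 1 / 4) (A S : Finset (Fin N))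
    (hA : ∀ b, b ∉ A → y b = 0) (c : Fin N → Bool) (hc : ∀ b ∈ S, b ∉ A → c b = false) :
    ‖op fun b => if b ∈ S then (if c b = true then y b else 1) else 1 + y b‖ ≤
      (g + (S ∩ A).card * y0 + (N * y0) ^ 2) *
        ∏ b, (if b ∈ S ∧ c b = true then 4 * y0 else 1) := by
  classical
  have h := slice_bound y y0 g hy0 hy hG hg hN (S ∩ A) c
  have h1 : (fun b => if b ∈ S then (if c b = true then y b else 1) else 1 + y b) =
      fun b => if b ∈ S ∩ A then (if c b = true then y b else 1) else 1 + y b := by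
    funext b
    by_cases hS : b ∈ S
    · by_cases hb : b ∈ A
      · rw [if_pos hS, if_pos (mem_inter.2 ⟨hS, hb⟩)]
      · rw [if_pos hS, if_neg (fun h => hb (mem_inter.1 h).2), hc b hS hb, hA b hb]
        simp
    · rw [if_neg hS, if_neg (fun h => hS (mem_inter.1 h).1)]
  have h2 : ∀ b, (if b ∈ S ∧ c b = true then 4 * y0 else 1) =
      (if b ∈ S ∩ A ∧ c b = true then 4 * y0 else 1) := by
    intro b
    by_cases hS : b ∈ S
    · by_cases hb : b ∈ A
      · simp [hS, hb]
      · simp [hS, hb, hc b hS hb]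
    · simp [hS]
  rw [h1]
  simp only [h2]
  exact h

lemma QSt_bound' (y : Fin M → Fin N → R) (y0 g : ℝ) (hy0 : 0 ≤ y0) (hy : ∀ t b, ‖y t b‖ ≤ y0)
    (hG : ∀ t, ‖1 + ∑ b, y t b‖ ≤ g) (hg : 1 / 2 ≤ g) (hN : N * y0 ≤ 1 / 4)
    (A : Fin M → Finset (Fin N)) (hA : ∀ t b, b ∉ A t → y t b = 0) (S : Finset (Fin N))
    (C : Fin M → Fin N → Bool) (hC : ∀ t, ∀ b ∈ S, b ∉ A t → C t b = false) :
    ‖QSt y S C‖ ≤ (∏ t, (g + (S ∩ A t).card * y0 + (N * y0) ^ 2)) * wt (4 * y0) S C := by
  unfold QSt pr wt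
  have h := norm_op_le (fun t => op fun b => if b ∈ S then (if C t b = true then y t b else 1)
    else 1 + y t b) _ (fun t => slice_bound' (y t) y0 g hy0 (hy t) (hG t) hg hN (A t) S (hA t)
      (C t) (hC t))
  refine h.trans (le_of_eq ?_)
  rw [Finset.prod_mul_distrib]

lemma QSt_zero (y : Fin M → Fin N → R) (A : Fin M → Finset (Fin N))
    (hA : ∀ t b, b ∉ A t → y t b = 0) (S : Finset (Fin N))
    (C : Fin M → Fin N → Bool) (hC : ¬ ∀ t, ∀ b ∈ S, b ∉ A t → C t b = false) :
    QSt y S C = 0 := by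
  push Not at hC
  obtain ⟨t, b, hb, hbA, hne⟩ := hC
  unfold QSt
  apply pr_eq_zero _ t b
  rw [if_pos hb, if_pos (by simpa using hne), hA t b hbA]

lemma wt_sum' (x : ℝ) (S : Finset (Fin N)) (A : Fin M → Finset (Fin N)) :
    ∑ C : Fin M → Fin N → Bool, (if (∀ t b, b ∉ S ∩ A t → C t b = false) then wt x S C else 0) =
      ∏ t, (1 + x) ^ (S ∩ A t).card := by
  classical
  have h1 : ∀ C : Fin M → Fin N → Bool,
      (if (∀ t b, b ∉ S ∩ A t → C t b = false) then wt x S C else 0) =
      ∏ t, ∏ b, (if b ∈ S ∩ A t then (if C t b = true then x else 1)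
        else (if C t b = true then 0 else 1)) := by
    intro C
    split_ifs with hc
    · unfold wt
      refine Finset.prod_congr rfl fun t _ => Finset.prod_congr rfl fun b _ => ?_
      by_cases hb : b ∈ S ∩ A t
      · have hS := (mem_inter.1 hb).1
        simp [hb, hS]
      · simp [hb, hc t b hb]
    · push Not at hc
      obtain ⟨t, b, hb, hne⟩ := hc
      symm
      apply Finset.prod_eq_zero (mem_univ t)
      apply Finset.prod_eq_zero (mem_univ b)
      rw [if_neg hb, if_pos (by simpa using hne)]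
  simp only [h1]
  have h2 := Finset.prod_univ_sum (ι := Fin M) (κ := fun _ => Fin N → Bool)
    (t := fun _ => univ) (f := fun t g => ∏ b, (if b ∈ S ∩ A t then (if g b = true then x else 1)
        else (if g b = true then (0 : ℝ) else 1)))
  rw [Fintype.piFinset_univ] at h2
  rw [← h2]
  refine Finset.prod_congr rfl fun t _ => ?_
  have h4 := Finset.prod_univ_sum (ι := Fin N) (κ := fun _ => Bool)
    (t := fun _ => univ) (f := fun b l => (if b ∈ S ∩ A t then (if l = true then x else 1)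
      else (if l = true then (0 : ℝ) else 1)))
  rw [Fintype.piFinset_univ] at h4
  rw [← h4]
  have h5 : ∏ b : Fin N, (if b ∈ S ∩ A t then (1 + x) else 1) = (1 + x) ^ (S ∩ A t).card := by
    rw [Finset.prod_ite, Finset.prod_const_one, mul_one, Finset.prod_const,
      Finset.filter_mem_eq_inter, Finset.univ_inter]
  rw [← h5]
  refine Finset.prod_congr rfl fun b _ => ?_
  by_cases hb : b ∈ S ∩ A t
  · simp [hb, add_comm]
  · simp [hb]

/-- double counting -/
lemma count_active (y0 θ : ℝ) (A : Fin M → Finset (Fin N)) (S : Finset (Fin N))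
    (hθ : ∀ b, ((univ.filter fun t => b ∈ A t).card : ℝ) * y0 ≤ θ) :
    ∑ t, ((S ∩ A t).card : ℝ) * y0 ≤ S.card * θ := by
  classical
  have h1 : ∀ t, ((S ∩ A t).card : ℝ) = ∑ b ∈ S, if b ∈ A t then (1 : ℝ) else 0 := by
    intro t
    rw [← Finset.sum_filter, Finset.sum_const, Finset.filter_mem_eq_inter, nsmul_eq_mul, mul_one]
  have h2 : ∀ b, ((univ.filter fun t => b ∈ A t).card : ℝ) =
      ∑ t, if b ∈ A t then (1 : ℝ) else 0 := by
    intro b
    rw [← Finset.sum_filter, Finset.sum_const, nsmul_eq_mul, mul_one]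
  rw [← Finset.sum_mul]
  simp only [h1]
  rw [Finset.sum_comm, Finset.sum_mul]
  calc ∑ b ∈ S, (∑ t, if b ∈ A t then (1 : ℝ) else 0) * y0 ≤ ∑ _b ∈ S, θ :=
        Finset.sum_le_sum fun b _ => by rw [← h2]; exact hθ b
    _ = S.card * θ := by rw [Finset.sum_const, nsmul_eq_mul]

lemma ESt_bound' (y : Fin M → Fin N → R) (y0 g θ : ℝ) (hy0 : 0 ≤ y0) (hy : ∀ t b, ‖y t b‖ ≤ y0)
    (hG : ∀ t, ‖1 + ∑ b, y t b‖ ≤ g) (hg : 1 / 2 ≤ g) (hN : N * y0 ≤ 1 / 4)
    (A : Fin M → Finset (Fin N)) (hA : ∀ t b, b ∉ A t → y t b = 0)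
    (hθ : ∀ b, ((univ.filter fun t => b ∈ A t).card : ℝ) * y0 ≤ θ) (r : ℕ)
    (S : Finset (Fin N)) :
    ‖ESt y r S‖ ≤ g ^ M * Real.exp (2 * M * (N * y0) ^ 2) *
      Real.exp (13 * θ - r) ^ S.card := by
  classical
  set P : ℝ := ∏ t, (g + (S ∩ A t).card * y0 + (N * y0) ^ 2) with hP
  have hg0 : 0 < g := by linarith
  have hP0 : 0 ≤ P := Finset.prod_nonneg fun t _ => by positivity
  set e : ℝ := Real.exp 1 with he
  have he1 : 1 ≤ e := by rw [he]; exact Real.one_le_exp (by norm_num)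
  have he0 : 0 < e := by linarith
  have hcount := count_active y0 θ A S hθ
  rw [ESt_eq]
  have h1 : ‖∑ C : Fin M → Fin N → Bool,
      (if (∀ t b, b ∉ S → C t b = false) ∧ (∀ b ∈ S, r < cnt C b) then QSt y S C else 0)‖ ≤
      ∑ C : Fin M → Fin N → Bool, (if (∀ t b, b ∉ S ∩ A t → C t b = false) then
        P * (((e ^ (r + 1)) ^ S.card)⁻¹ * wt (e * (4 * y0)) S C) else 0) := by
    refine (norm_sum_le _ _).trans (Finset.sum_le_sum fun C _ => ?_)
    have hn : 0 ≤ (if (∀ t b, b ∉ S ∩ A t → C t b = false) then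
        P * (((e ^ (r + 1)) ^ S.card)⁻¹ * wt (e * (4 * y0)) S C) else 0) := by
      split_ifs
      · have := wt_nonneg (x := e * (4 * y0)) (by positivity) S C
        positivity
      · exact le_rfl
    by_cases hc1 : ∀ t b, b ∉ S → C t b = false
    · by_cases hc2 : ∀ b ∈ S, r < cnt C b
      · rw [if_pos ⟨hc1, hc2⟩]
        by_cases hc3 : ∀ t, ∀ b ∈ S, b ∉ A t → C t b = false
        · have hc4 : ∀ t b, b ∉ S ∩ A t → C t b = false := by
            intro t b hb
            by_cases hS : b ∈ S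
            · exact hc3 t b hS fun h => hb (mem_inter.2 ⟨hS, h⟩)
            · exact hc1 t b hS
          rw [if_pos hc4]
          refine (QSt_bound' y y0 g hy0 hy hG hg hN A hA S C hc3).trans ?_
          refine mul_le_mul_of_nonneg_left ?_ hP0
          rw [wt_mul e (4 * y0)]
          have h2 := wt_ge e he1 r S C hc2
          have h3 := wt_nonneg (x := 4 * y0) (by positivity) S C
          rw [← mul_assoc]
          have h4 : 1 ≤ ((e ^ (r + 1)) ^ S.card)⁻¹ * wt e S C := by
            rw [le_inv_mul_iff₀ (by positivity)]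
            linarith
          calc wt (4 * y0) S C = 1 * wt (4 * y0) S C := by ring
            _ ≤ _ := mul_le_mul_of_nonneg_right h4 h3
        · rw [QSt_zero y A hA S C hc3, norm_zero]
          exact hn
      · rw [if_neg (fun h => hc2 h.2), norm_zero]
        exact hn
    · rw [if_neg (fun h => hc1 h.1), norm_zero]
      exact hn
  refine h1.trans ?_
  have h2 : ∑ C : Fin M → Fin N → Bool, (if (∀ t b, b ∉ S ∩ A t → C t b = false) then
        P * (((e ^ (r + 1)) ^ S.card)⁻¹ * wt (e * (4 * y0)) S C) else 0) =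
      P * ((e ^ (r + 1)) ^ S.card)⁻¹ * ∏ t, (1 + e * (4 * y0)) ^ (S ∩ A t).card := by
    rw [← wt_sum', Finset.mul_sum]
    refine Finset.sum_congr rfl fun C _ => ?_
    split_ifs
    · ring
    · simp
  rw [h2]
  -- estimates
  have h3 : P ≤ g ^ M * (Real.exp (2 * M * (N * y0) ^ 2) * Real.exp (2 * θ) ^ S.card) := by
    have h4 : ∀ t, g + (S ∩ A t).card * y0 + (N * y0) ^ 2 ≤
        g * Real.exp (2 * ((N * y0) ^ 2 + (S ∩ A t).card * y0)) := by
      intro t
      have h5 := Real.add_one_le_exp (2 * ((N * y0) ^ 2 + (S ∩ A t).card * y0))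
      have h6 : 0 ≤ (N * y0) ^ 2 + (S ∩ A t).card * y0 := by positivity
      have h7 : g + (S ∩ A t).card * y0 + (N * y0) ^ 2 ≤
          g * (2 * ((N * y0) ^ 2 + (S ∩ A t).card * y0) + 1) := by nlinarith
      exact h7.trans (mul_le_mul_of_nonneg_left h5 hg0.le)
    calc P ≤ ∏ t, (g * Real.exp (2 * ((N * y0) ^ 2 + (S ∩ A t).card * y0))) :=
          Finset.prod_le_prod (fun t _ => by positivity) fun t _ => h4 t
      _ = g ^ M * Real.exp (∑ t, 2 * ((N * y0) ^ 2 + (S ∩ A t).card * y0)) := by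
          rw [Finset.prod_mul_distrib, Real.exp_sum]
          simp
      _ ≤ g ^ M * Real.exp (2 * M * (N * y0) ^ 2 + S.card * (2 * θ)) := by
          refine mul_le_mul_of_nonneg_left (Real.exp_le_exp.2 ?_) (by positivity)
          rw [← Finset.mul_sum, Finset.sum_add_distrib, Finset.sum_const, card_univ,
            Fintype.card_fin, nsmul_eq_mul]
          linarith
      _ = _ := by
          rw [Real.exp_add, ← Real.exp_nat_mul]
  have h4 : ∏ t, (1 + e * (4 * y0)) ^ (S ∩ A t).card ≤ Real.exp (11 * θ) ^ S.card := by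
    have he2 : e * 4 ≤ 11 := by
      have := Real.exp_one_lt_d9
      rw [he]; linarith
    have h5 : 1 + e * (4 * y0) ≤ Real.exp (11 * y0) := by
      have := Real.add_one_le_exp (11 * y0)
      nlinarith
    calc ∏ t, (1 + e * (4 * y0)) ^ (S ∩ A t).card ≤ ∏ t, Real.exp (11 * y0) ^ (S ∩ A t).card :=
          Finset.prod_le_prod (fun t _ => by positivity) fun t _ =>
            pow_le_pow_left₀ (by positivity) h5 _
      _ = Real.exp (∑ t, (S ∩ A t).card * (11 * y0)) := by
          rw [Real.exp_sum]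
          refine Finset.prod_congr rfl fun t _ => ?_
          rw [← Real.exp_nat_mul]
      _ ≤ Real.exp (S.card * (11 * θ)) := by
          apply Real.exp_le_exp.2
          have h6 : ∑ t, ((S ∩ A t).card : ℝ) * (11 * y0) =
              11 * ∑ t, ((S ∩ A t).card : ℝ) * y0 := by
            rw [Finset.mul_sum]
            refine Finset.sum_congr rfl fun t _ => ?_
            ring
          rw [h6]
          linarith
      _ = Real.exp (11 * θ) ^ S.card := by rw [← Real.exp_nat_mul]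
  have h5 : ((e ^ (r + 1)) ^ S.card)⁻¹ ≤ Real.exp (-(r : ℝ)) ^ S.card := by
    rw [← inv_pow]
    refine pow_le_pow_left₀ (by positivity) ?_ _
    rw [he, ← Real.exp_nat_mul, ← Real.exp_neg]
    apply Real.exp_le_exp.2
    push_cast
    linarith
  calc P * ((e ^ (r + 1)) ^ S.card)⁻¹ * ∏ t, (1 + e * (4 * y0)) ^ (S ∩ A t).card
      ≤ (g ^ M * (Real.exp (2 * M * (N * y0) ^ 2) * Real.exp (2 * θ) ^ S.card)) *
        Real.exp (-(r : ℝ)) ^ S.card * Real.exp (11 * θ) ^ S.card := by
        refine mul_le_mul (mul_le_mul h3 h5 (by positivity) (by positivity)) h4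
          (Finset.prod_nonneg fun t _ => by positivity) (by positivity)
    _ = g ^ M * Real.exp (2 * M * (N * y0) ^ 2) * Real.exp (13 * θ - r) ^ S.card := by
        have : Real.exp (13 * θ - r) =
            Real.exp (2 * θ) * Real.exp (-(r : ℝ)) * Real.exp (11 * θ) := by
          rw [← Real.exp_add, ← Real.exp_add]; congr 1; ring
        rw [this, mul_pow, mul_pow]
        ring

/-- the truncated expansion approximates the power of `1 + ∑ y` -/
theorem trunc_boundt' (y : Fin M → Fin N → R) (y0 g θ : ℝ) (hy0 : 0 ≤ y0)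
    (hy : ∀ t b, ‖y t b‖ ≤ y0)
    (hG : ∀ t, ‖1 + ∑ b, y t b‖ ≤ g) (hg : 1 / 2 ≤ g) (hN : N * y0 ≤ 1 / 4)
    (A : Fin M → Finset (Fin N)) (hA : ∀ t b, b ∉ A t → y t b = 0)
    (hθ : ∀ b, ((univ.filter fun t => b ∈ A t).card : ℝ) * y0 ≤ θ) (r : ℕ)
    (hM : 2 * M * (N * y0) ^ 2 ≤ 1) (hr : N * Real.exp (13 * θ - r) ≤ 1) :
    ‖KTt y r - op fun t => 1 + ∑ b, y t b‖ ≤ g ^ M *
      (6 * (N * Real.exp (13 * θ - r)) + 4 * (M * (N * y0) ^ 2)) := by
  classical
  set G : Fin M → R := fun t => 1 + ∑ b, y t b with hGdef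
  set T : Fin M → R := fun t => op fun b => 1 + y t b with hT
  set δ : ℝ := Real.exp (13 * θ - r) with hδ
  set u : ℝ := 2 * M * (N * y0) ^ 2 with hu
  have hδ0 : 0 < δ := Real.exp_pos _
  have hu0 : 0 ≤ u := by positivity
  have hg0 : 0 < g := by linarith
  -- first part
  have h1 : ‖op T - op G‖ ≤ g ^ M * (Real.exp u - 1) := by
    have h2 : ∀ t, ‖T t - G t‖ ≤ (N * y0) ^ 2 := fun t =>
      ((norm_op_sub (y t) y0 (hy t) hy0).2).trans (pow_bd hy0 (by linarith))
    have h3 := norm_op_diff T G g _ hg0.le (by positivity) hG h2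
    refine h3.trans ?_
    have h4 : g + (N * y0) ^ 2 ≤ g * Real.exp (2 * (N * y0) ^ 2) := by
      have h5 := Real.add_one_le_exp (2 * ((N : ℝ) * y0) ^ 2)
      have h6 : g * (2 * ((N : ℝ) * y0) ^ 2 + 1) ≤ g * Real.exp (2 * (N * y0) ^ 2) :=
        mul_le_mul_of_nonneg_left h5 hg0.le
      nlinarith [sq_nonneg ((N : ℝ) * y0)]
    have h5 : (g + (N * y0) ^ 2) ^ M ≤ g ^ M * Real.exp u := by
      calc (g + (N * y0) ^ 2) ^ M ≤ (g * Real.exp (2 * (N * y0) ^ 2)) ^ M :=
            pow_le_pow_left₀ (by positivity) h4 M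
        _ = g ^ M * Real.exp u := by
            rw [mul_pow, ← Real.exp_nat_mul]
            congr 2
            rw [hu]; ring
    nlinarith
  -- second part
  have h2 : ‖KTt y r - op T‖ ≤ g ^ M * Real.exp u * ((1 + δ) ^ N - 1) := by
    rw [incl_exclt, ← ESt_empty y r]
    rw [← Finset.add_sum_erase univ _ (mem_univ (∅ : Finset (Fin N)))]
    simp only [card_empty, pow_zero, one_smul, add_sub_cancel_left]
    refine (norm_sum_le _ _).trans ?_
    have h3 : ∀ S : Finset (Fin N), ‖((-1 : ℤ) ^ S.card) • ESt y r S‖ ≤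
        g ^ M * Real.exp u * δ ^ S.card := by
      intro S
      have h4 : ‖((-1 : ℤ) ^ S.card) • ESt y r S‖ = ‖ESt y r S‖ := by
        rcases neg_one_pow_eq_or ℤ S.card with h | h <;> rw [h] <;> simp
      rw [h4]
      exact ESt_bound' y y0 g θ hy0 hy hG hg hN A hA hθ r S
    refine (Finset.sum_le_sum fun S _ => h3 S).trans (le_of_eq ?_)
    rw [← Finset.mul_sum]
    congr 1
    have h5 := Finset.sum_pow_mul_eq_add_pow δ 1 (univ : Finset (Fin N))
    rw [Finset.powerset_univ] at h5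
    simp only [one_pow, mul_one, card_univ, Fintype.card_fin] at h5
    rw [← Finset.add_sum_erase univ _ (mem_univ (∅ : Finset (Fin N)))] at h5
    simp only [card_empty, pow_zero] at h5
    rw [add_comm 1 δ, ← h5]
    ring
  have h3 : (1 + δ) ^ N - 1 ≤ 2 * (N * δ) := by
    have h4 : (1 + δ) ^ N ≤ Real.exp (N * δ) := by
      rw [Real.exp_nat_mul]
      exact pow_le_pow_left₀ (by positivity) (by linarith [Real.add_one_le_exp δ]) N
    have h5 := exp_bd2 (u := N * δ) (by positivity) hr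
    linarith
  have h4 : Real.exp u ≤ 3 := by
    have := exp_bd2 hu0 hM
    linarith
  have h5 : Real.exp u - 1 ≤ 2 * u := exp_bd2 hu0 hM
  have hgM : 0 < g ^ M := by positivity
  calc ‖KTt y r - op G‖ = ‖(KTt y r - op T) + (op T - op G)‖ := by congr 1; abel
    _ ≤ g ^ M * Real.exp u * ((1 + δ) ^ N - 1) + g ^ M * (Real.exp u - 1) :=
        (norm_add_le _ _).trans (add_le_add h2 h1)
    _ ≤ g ^ M * 3 * (2 * (N * δ)) + g ^ M * (2 * u) := by
        refine add_le_add ?_ (mul_le_mul_of_nonneg_left h5 hgM.le)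
        refine mul_le_mul (mul_le_mul_of_nonneg_left h4 hgM.le) h3 ?_ (by positivity)
        have : (1 : ℝ) ≤ (1 + δ) ^ N := one_le_pow₀ (by linarith)
        linarith
    _ = g ^ M * (6 * (N * δ) + 4 * (M * (N * y0) ^ 2)) := by rw [hu]; ring

end norm

end Pool.Agent.Helper66.FS
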