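import Pool.Agent.Helper66.FT.Refine
import Pool.Agent.Helper66.FS.Step

/-!
Refinement of a piecewise constant evolution with active sites.
-/

set_option autoImplicit false
set_option linter.unusedSectionVars false

open scoped BigOperators Matrix ComplexConjugate ComplexOrder ENNReal
open Finset Pool.Agent.TH235.PP Pool.Agent.Results.MP_953b23_mp.OverlapBoosting
  Pool.Agent.Helper99.PE Pool.Agent.Helper66.FD Pool.Agent.Helper66.FT

namespace Pool.Agent.Helper66.FS

theorem card_append {α : Type*} {n m : ℕ} (P : α → Prop) [DecidablePred P] (a : Fin n → α)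
    (b : Fin m → α) :
    (univ.filter fun t => P (Fin.append a b t)).card =
      (univ.filter fun t => P (a t)).card + (univ.filter fun t => P (b t)).card := by
  simp only [Finset.card_filter, Fin.sum_univ_add, Fin.append_left, Fin.append_right]

variable {L d R' : ℕ} [NeZero L]

theorem refine_evol' (hgk : GKSL) (hR : R' + 1 ≤ L) {y0 : ℝ} (hy0 : 0 < y0) {m : ℕ} {T : ℝ}
    {τ : Site L → ℝ} {X Y : TorOp d L} (h : Schedule (R' + 1) m T τ X Y) :
    0 ≤ T ∧ (∀ u, 0 ≤ τ u) ∧
      ∃ (M : ℕ) (p : Fin M → ℝ × (Site L → BoxOp (d * d) (R' + 1)) × Finset (Site L)),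
      (M : ℝ) * y0 ≤ 8 * T + m * y0 ∧
      (∀ u, ((univ.filter fun t => u ∈ (p t).2.2).card : ℝ) * y0 ≤ 8 * τ u + m * y0) ∧
      (∀ t, 0 ≤ (p t).1 ∧ (p t).1 ≤ y0 ∧ Good' (p t).2.1) ∧
      (∀ t u, u ∉ (p t).2.2 → (p t).2.1 u = 0) ∧
      vec Y = (op fun t => NormedSpace.exp (((p t).1 : ℂ) • tot (p t).2.1)) *ᵥ vec X := by
  induction h with
  | refl X =>
    refine ⟨le_rfl, fun _ => le_rfl, 0, Fin.elim0, by simp, fun u => by simp,
      fun t => t.elim0, fun t => t.elim0, ?_⟩
    rw [op_zero, Matrix.one_mulVec]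
  | @step m T τ X Y Z q H K A s hev hA hact hs hZ ih =>
    obtain ⟨hT, hτ, M, p, hM, hloc, hp, hz, hY⟩ := ih
    have hs' : ∀ u : Site L, (0 : ℝ) ≤ if u ∈ A then s else 0 := by
      intro u
      split_ifs
      · exact hs
      · exact le_rfl
    refine ⟨add_nonneg hT hs, fun u => add_nonneg (hτ u) (hs' u), ?_⟩
    set n : ℕ := ⌈8 * s / y0⌉₊ with hn
    have hn1 : 8 * s / y0 ≤ n := Nat.le_ceil _
    have hn2 : (n : ℝ) < 8 * s / y0 + 1 := Nat.ceil_lt_add_one (by positivity)
    have hny : (n : ℝ) * y0 ≤ 8 * s + y0 := by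
      have h1 : (n : ℝ) * y0 ≤ (8 * s / y0 + 1) * y0 := mul_le_mul_of_nonneg_right hn2.le hy0.le
      have h2 : (8 * s / y0 + 1) * y0 = 8 * s + y0 := by field_simp
      rwa [h2] at h1
    set g : Site L → BoxOp (d * d) (R' + 1) := fun u => (1 / 8 : ℂ) • lindblad (H u) (K u) with hg
    have hgood : Good' g := by
      refine ⟨fun u b hb => dual_lind hR (hA u).2 u hb, ?_⟩
      rw [hg, tot_smul]
      exact markov_smul (gen_markov hgk hR hA) (by norm_num)
    refine ⟨n + M, Fin.append (fun _ => (8 * s / n, g, A)) p, ?_, ?_, ?_, ?_, ?_⟩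
    · push_cast
      linarith
    · intro u
      rw [card_append (fun x : ℝ × (Site L → BoxOp (d * d) (R' + 1)) × Finset (Site L) =>
        u ∈ x.2.2)]
      push_cast
      have h3 := hloc u
      by_cases hu : u ∈ A
      · simp only [hu, if_true, Finset.filter_true, Finset.card_univ, Fintype.card_fin]
        linarith
      · simp only [hu, if_false, Finset.filter_false, Finset.card_empty, Nat.cast_zero]
        linarith
    · intro t
      refine Fin.addCases (fun i => ?_) (fun i => ?_) t
      · rw [Fin.append_left]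
        have hn0 : (0 : ℝ) < n := by
          have : 0 < n := lt_of_le_of_lt (Nat.zero_le _) i.2
          exact_mod_cast this
        refine ⟨by positivity, ?_, hgood⟩
        rw [div_le_iff₀ hn0]
        rw [div_le_iff₀ hy0] at hn1
        linarith
      · rw [Fin.append_right]
        exact hp i
    · intro t u
      refine Fin.addCases (fun i => ?_) (fun i => ?_) t
      · rw [Fin.append_left]
        intro hu
        have h4 := hact u hu
        show (1 / 8 : ℂ) • lindblad (H u) (K u) = 0
        rw [lindblad_zero h4.1 h4.2, smul_zero]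
      · rw [Fin.append_right]
        exact hz i u
    · rw [append_comp (fun x : ℝ × (Site L → BoxOp (d * d) (R' + 1)) × Finset (Site L) =>
        NormedSpace.exp (((x.1 : ℝ) : ℂ) • tot x.2.1)), op_append, ← Matrix.mulVec_mulVec, ← hY, hZ]
      congr 1
      rw [op_const, ← Matrix.exp_nsmul]
      congr 1
      rw [hg, tot_smul, smul_smul, ← Nat.cast_smul_eq_nsmul ℂ, smul_smul]
      congr 1
      rcases Nat.eq_zero_or_pos n with h0 | h0
      · have h1 : 8 * s / y0 ≤ 0 := by
          rw [h0] at hn1
          simpa using hn1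
        have h2 : s = 0 := by
          rw [div_le_iff₀ hy0] at h1
          linarith
        rw [h2]
        simp
      · have h1 : (n : ℂ) ≠ 0 := by
          exact_mod_cast h0.ne'
        push_cast
        field_simp

end Pool.Agent.Helper66.FS
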