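import Pool.Agent.Helper66.FT.Num

/-! Elementary estimates. -/

set_option autoImplicit false

namespace Pool.Agent.Helper66.FS

open Pool.Agent.Helper66.FD Pool.Agent.Helper66.FT

/-- the size of the labels -/
theorem num_U' {C0 l L v w : ℝ} {d R : ℕ} (hC0 : 1 ≤ C0) (hl : 1 ≤ l) (hL : 1 ≤ L)
    (hlog : Real.log L ≤ l) (hlv : l ≤ v) (hwv : w ^ 2 ≤ v) (hR : (R : ℝ) ≤ C0 * w) :
    57 * (L ^ 2) ^ 2 * (8 * Real.exp (C0 * l) + Real.exp (C0 * l) + 1) ^ 2 / Real.exp (-(C0 * l + 3)) *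
      (((d * d) ^ (R * R) * (d * d) ^ (R * R) : ℕ) : ℝ) ≤
      Real.exp ((17 + 3 * C0 + 4 * d * C0 ^ 2) * v) := by
  have hL4 : (L ^ 2) ^ 2 ≤ Real.exp (4 * l) := by
    have h4 : L ≤ Real.exp l := by
      rw [← Real.log_le_iff_le_exp (by linarith)]
      exact hlog
    calc (L ^ 2) ^ 2 = L ^ 4 := by ring
      _ ≤ (Real.exp l) ^ 4 := pow_le_pow_left₀ (by linarith) h4 4
      _ = Real.exp (4 * l) := by rw [← Real.exp_nat_mul]; norm_num
  have h2 : (8 * Real.exp (C0 * l) + Real.exp (C0 * l) + 1) ^ 2 ≤ Real.exp 5 * Real.exp (2 * (C0 * l)) := by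
    have h1 : 8 * Real.exp (C0 * l) + Real.exp (C0 * l) + 1 ≤ 10 * Real.exp (C0 * l) := by
      have h3 := Real.add_one_le_exp (C0 * l)
      have h4 : 0 ≤ C0 * l := by positivity
      linarith
    have h0 : 0 ≤ 8 * Real.exp (C0 * l) + Real.exp (C0 * l) + 1 := by positivity
    calc (8 * Real.exp (C0 * l) + Real.exp (C0 * l) + 1) ^ 2 ≤ (10 * Real.exp (C0 * l)) ^ 2 :=
          pow_le_pow_left₀ h0 h1 2
      _ = 100 * Real.exp (C0 * l) ^ 2 := by ring
      _ ≤ Real.exp 5 * Real.exp (C0 * l) ^ 2 :=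
          mul_le_mul_of_nonneg_right exp_five_ge (by positivity)
      _ = Real.exp 5 * Real.exp (2 * (C0 * l)) := by
          rw [← Real.exp_nat_mul]; norm_num
  have h3 : (((d * d) ^ (R * R) * (d * d) ^ (R * R) : ℕ) : ℝ) ≤ Real.exp (4 * d * (C0 * w) ^ 2) := by
    have h4 : (d : ℝ) ≤ Real.exp d := by linarith [Real.add_one_le_exp (d : ℝ)]
    have h5 : (((d * d) ^ (R * R) * (d * d) ^ (R * R) : ℕ) : ℝ) = (d : ℝ) ^ (4 * (R * R)) := by
      push_cast
      ring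
    rw [h5]
    calc (d : ℝ) ^ (4 * (R * R)) ≤ (Real.exp d) ^ (4 * (R * R)) :=
          pow_le_pow_left₀ (Nat.cast_nonneg _) h4 _
      _ = Real.exp (((4 * (R * R) : ℕ) : ℝ) * d) := (Real.exp_nat_mul _ _).symm
      _ ≤ Real.exp (4 * d * (C0 * w) ^ 2) := by
          apply Real.exp_le_exp.2
          push_cast
          have h6 : (R : ℝ) * R ≤ (C0 * w) ^ 2 := by
            have h7 := pow_le_pow_left₀ (Nat.cast_nonneg R) hR 2
            linarith [sq (R : ℝ)]
          have h8 := mul_le_mul_of_nonneg_left h6 (by positivity : (0 : ℝ) ≤ 4 * d)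
          linarith
  rw [div_eq_mul_inv, ← Real.exp_neg, neg_neg]
  have h57 : (57 : ℝ) ≤ Real.exp 5 := by linarith [exp_five_ge]
  calc 57 * (L ^ 2) ^ 2 * (8 * Real.exp (C0 * l) + Real.exp (C0 * l) + 1) ^ 2 * Real.exp (C0 * l + 3) *
        (((d * d) ^ (R * R) * (d * d) ^ (R * R) : ℕ) : ℝ)
      ≤ Real.exp 5 * Real.exp (4 * l) * (Real.exp 5 * Real.exp (2 * (C0 * l))) *
        Real.exp (C0 * l + 3) * Real.exp (4 * d * (C0 * w) ^ 2) := by
        refine mul_le_mul (mul_le_mul_of_nonneg_right (mul_le_mul (mul_le_mul h57 hL4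
          (by positivity) (Real.exp_pos _).le) h2 (by positivity) (by positivity))
          (Real.exp_pos _).le) h3 (Nat.cast_nonneg _) (by positivity)
    _ = Real.exp (5 + 4 * l + (5 + 2 * (C0 * l)) + (C0 * l + 3) + 4 * d * (C0 * w) ^ 2) := by
        simp only [← Real.exp_add]
    _ ≤ _ := by
        apply Real.exp_le_exp.2
        have h9 : C0 * l ≤ C0 * v := mul_le_mul_of_nonneg_left hlv (by linarith)
        have h11 : 4 * (d : ℝ) * (C0 * w) ^ 2 = 4 * d * C0 ^ 2 * w ^ 2 := by ring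
        have h12 : 4 * (d : ℝ) * C0 ^ 2 * w ^ 2 ≤ 4 * d * C0 ^ 2 * v :=
          mul_le_mul_of_nonneg_left hwv (by positivity)
        rw [h11]
        linarith

end Pool.Agent.Helper66.FS
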