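import Pool.Agent.Helper66.FT.Main
import Pool.Agent.Helper66.FS.Evol
import Pool.Agent.Helper66.FS.Num

/-!
Gapped families that are prepared by local Lindblad dynamics with short local times.
-/

set_option autoImplicit false
set_option linter.unusedSectionVars false

open scoped BigOperators Matrix ComplexConjugate ComplexOrder
open Finset Pool.Agent.TH235.PP Pool.Agent.Results.MP_953b23_mp.OverlapBoosting
  Pool.Agent.Helper99.PE Pool.Agent.Helper66.FD Pool.Agent.Helper66.FT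

namespace Pool.Agent.Helper66.FS

/-- the conclusion for one size of the torus -/
theorem main_one' (hgk : GKSL) {d : ℕ} {C0 C1 l v w E : ℝ} {L : ℕ} [NeZero L] (hd : 0 < d) (hL3 : 3 ≤ L)
    (hC0 : 1 ≤ C0) (hC1 : 0 ≤ C1) (hl : 1 ≤ l) (hlog : Real.log L ≤ l) (hw : 1 ≤ w)
    (hlv : l ≤ v) (hwv : w ^ 2 ≤ v) (hvE : v * l * w ^ 2 ≤ E)
    {χ Ψ : (Site L → Fin d) → ℂ} (hχ : normSq χ = 1) (hΨ : normSq Ψ = 1)
    {D0 : ℕ} {φ : (Site L → Fin d) → ℂ} (hD0 : (D0 : ℝ) ≤ Real.exp (C1 * E)) (hφ : IsPEPS D0 φ)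
    (hφχ : nr (φ - χ) ≤ Real.exp (-((C0 + 4) * l)))
    {R m : ℕ} {T : ℝ} {τ : Site L → ℝ} {ρ : TorOp d L} (hR0 : 0 < R) (hRL : R ≤ L) (hR : (R : ℝ) ≤ C0 * w)
    (hm : (m : ℝ) ≤ Real.exp (C0 * l)) (hT : T ≤ Real.exp (C0 * l)) (hτ : ∀ u, τ u ≤ C0 * l)
    (hE : Schedule R m T τ (Matrix.vecMulVec χ (star χ)) ρ)
    (hov : Real.exp (-(C0 * l)) ≤ ‖ip Ψ (ρ *ᵥ Ψ)‖) :
    ∃ (D : ℕ) (x : (Site L → Fin (d * d)) → ℂ),
      (D : ℝ) ≤ Real.exp ((2 * C1 + (17 + 3 * C0 + 4 * d * C0 ^ 2) * (105 * C0 + 24) * C0 ^ 2 +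
        C0 + 2) * E) ∧ IsPEPS D x ∧ 0 < normSq x ∧
      Real.exp (-((2 * C1 + (17 + 3 * C0 + 4 * d * C0 ^ 2) * (105 * C0 + 24) * C0 ^ 2 +
        C0 + 2) * E)) * Real.sqrt (normSq x) ≤ ‖ip (rk Ψ Ψ) x‖ := by
  obtain ⟨R', rfl⟩ : ∃ R', R = R' + 1 := ⟨R - 1, by omega⟩
  have hL1 : (1 : ℝ) ≤ L := by
    have : (3 : ℝ) ≤ L := by exact_mod_cast hL3
    linarith
  set K1 : ℝ := 17 + 3 * C0 + 4 * d * C0 ^ 2 with hK1
  set K2 : ℝ := 105 * C0 + 24 with hK2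
  have hK10 : 0 ≤ K1 := by positivity
  have hK20 : 0 ≤ K2 := by positivity
  set ε : ℝ := Real.exp (-(C0 * l + 3)) with hε
  have hCl : 1 ≤ C0 * l := one_le_mul_of_one_le_of_one_le hC0 hl
  have hε1 : ε ≤ 1 := Real.exp_le_one_iff.2 (by linarith)
  have hcast : (((L ^ 2 : ℕ) : ℝ)) = (L : ℝ) ^ 2 := by push_cast; rfl
  have herr := num_err (C0 := C0) hl
  rw [← hε] at herr
  have hη1 : Real.exp (-(C0 * l)) ≤ 1 := Real.exp_le_one_iff.2 (by linarith)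
  have hη0 : 0 < Real.exp (-(C0 * l)) := Real.exp_pos _
  have hX : ‖tv (vec (Matrix.vecMulVec χ (star χ)))‖ ≤ 1 := by
    rw [vec_rk]
    exact (norm_rk χ).trans hχ.le
  have hx0 : IsPEPS (D0 * D0) (rk φ φ) := peps_stack finProdFinEquiv hφ (peps_conj hφ)
  have hx0X : ‖tv (rk φ φ - vec (Matrix.vecMulVec χ (star χ)))‖ ≤
      6 * Real.exp (-((C0 + 4) * l)) := by
    rw [vec_rk]
    refine rk_near (Real.exp_le_one_iff.2 ?_) hχ hφχ
    have : 0 ≤ (C0 + 4) * l := by positivity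
    linarith
  obtain ⟨hY, D, x, hD, hx, hxY⟩ := evol_peps' hgk (Tm := Real.exp (C0 * l)) (θm := C0 * l) (mm := Real.exp (C0 * l)) (ε := ε) (U := K1 * v)
    (ρ := K2 * l) (a0 := 6 * Real.exp (-((C0 + 4) * l))) hd hRL (Real.exp_pos _) hε1
    (mul_nonneg hK10 (by linarith)) (Real.exp_pos _).le (by positivity)
    (by rw [hcast]; exact num_U' hC0 hl hL1 hlog hlv hwv hR)
    (by rw [hcast]; exact num_rho hl hL1 hlog)
    hE hT hτ hm (by linarith [Real.exp_pos (-(C0 * l + 3))]) hX hx0 hx0X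
  have hxY' := hxY.trans herr
  -- the overlap
  have h1 : ip (rk Ψ Ψ) x = ip (rk Ψ Ψ) (vec ρ) + ip (rk Ψ Ψ) (x - vec ρ) := by
    rw [ip_dot, ip_dot, ip_dot, ← dotProduct_add]
    congr 1
    abel
  have hnΨ : nr (rk Ψ Ψ) ≤ 1 := by rw [nr_rk, hΨ]
  have h2 : ‖ip (rk Ψ Ψ) (x - vec ρ)‖ ≤ Real.exp (-(C0 * l)) / 2 := by
    rw [ip_dot]
    exact (le_norm _ (dual_ip hnΨ)).trans hxY'
  have h3 : Real.exp (-(C0 * l)) / 2 ≤ ‖ip (rk Ψ Ψ) x‖ := by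
    rw [ip_vec] at hov
    have h4 : ‖ip (rk Ψ Ψ) (vec ρ)‖ ≤ ‖ip (rk Ψ Ψ) x‖ + ‖ip (rk Ψ Ψ) (x - vec ρ)‖ := by
      have h5 : ip (rk Ψ Ψ) (vec ρ) = ip (rk Ψ Ψ) x - ip (rk Ψ Ψ) (x - vec ρ) := by
        rw [h1]; ring
      rw [h5]
      exact norm_sub_le _ _
    linarith
  have h4 : nr x ≤ 3 / 2 := by
    have h5 : ‖tv x‖ ≤ ‖tv (vec ρ)‖ + ‖tv (x - vec ρ)‖ := by
      have h6 : tv x = tv (vec ρ) + tv (x - vec ρ) := by rw [tv_sub]; abel
      calc ‖tv x‖ = ‖tv (vec ρ) + tv (x - vec ρ)‖ := by rw [← h6]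
        _ ≤ _ := norm_add_le _ _
    have h7 := nr_le x
    linarith
  have hv : 1 ≤ v := hl.trans hlv
  have hw2 : 1 ≤ w ^ 2 := one_le_pow₀ hw
  have hll : l ≤ E := by
    have h5 : 1 * l ≤ v * l := mul_le_mul_of_nonneg_right hv (by linarith)
    have h6 : v * l * 1 ≤ v * l * w ^ 2 := mul_le_mul_of_nonneg_left hw2 (by positivity)
    linarith
  have hl6 : 1 ≤ E := hl.trans hll
  have hP : 0 ≤ K1 * K2 * C0 ^ 2 := by positivity
  refine ⟨D, x, hD.trans ?_, hx, ?_, ?_⟩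
  · have hb := (num_bond (by linarith : 0 ≤ l) (by linarith : 0 ≤ v) hK10 hK20
      (Nat.cast_nonneg (R' + 1)) hR).trans (mul_le_mul_of_nonneg_left hvE hP)
    have h5 : ((D0 * D0 : ℕ) : ℝ) ≤ Real.exp (2 * (C1 * E)) := by
      push_cast
      calc (D0 : ℝ) * D0 ≤ Real.exp (C1 * E) * Real.exp (C1 * E) :=
            mul_le_mul hD0 hD0 (Nat.cast_nonneg _) (Real.exp_pos _).le
        _ = Real.exp (2 * (C1 * E)) := by rw [← Real.exp_add]; congr 1; ring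
    calc ((D0 * D0 : ℕ) : ℝ) * Real.exp (K1 * v * (K2 * l) * ((R' + 1 : ℕ) : ℝ) ^ 2)
        ≤ Real.exp (2 * (C1 * E)) * Real.exp (K1 * K2 * C0 ^ 2 * E) :=
          mul_le_mul h5 (Real.exp_le_exp.2 hb) (Real.exp_pos _).le (Real.exp_pos _).le
      _ = Real.exp (2 * (C1 * E) + K1 * K2 * C0 ^ 2 * E) := by rw [← Real.exp_add]
      _ ≤ _ := by
          apply Real.exp_le_exp.2
          have h7 : 0 ≤ (C0 + 2) * E := by positivity
          linarith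
  · have h5 : 0 < ‖ip (rk Ψ Ψ) x‖ := by linarith
    have h6 : ‖ip (rk Ψ Ψ) x‖ ≤ 1 * nr x :=
      (ip_le (rk Ψ Ψ) x).trans (mul_le_mul_of_nonneg_right hnΨ (nr_nonneg _))
    rw [← nr_sq]
    have h7 : 0 < nr x := by linarith
    positivity
  · rw [sqrt_normSq]
    refine le_trans ?_ h3
    have h5 : Real.exp (-((2 * C1 + K1 * K2 * C0 ^ 2 + C0 + 2) * E)) ≤
        Real.exp (-(C0 * l)) * Real.exp (-2) := by
      rw [← Real.exp_add]
      apply Real.exp_le_exp.2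
      have h6 : C0 * l ≤ C0 * E := mul_le_mul_of_nonneg_left hll (by linarith)
      have h7 : 0 ≤ C1 * E := by positivity
      have h8 : 0 ≤ K1 * K2 * C0 ^ 2 * E := by positivity
      linarith
    have h6 : Real.exp (-2) ≤ 1 / 4 := by
      have h1 : (2.7 : ℝ) ≤ Real.exp 1 := by linarith [Real.exp_one_gt_d9]
      have h2 : Real.exp 2 = Real.exp 1 ^ 2 := by
        rw [← Real.exp_nat_mul]; norm_num
      have h3 : (4 : ℝ) ≤ Real.exp 2 := by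
        rw [h2]
        calc (4 : ℝ) ≤ 2.7 ^ 2 := by norm_num
          _ ≤ Real.exp 1 ^ 2 := pow_le_pow_left₀ (by norm_num) h1 2
      rw [Real.exp_neg, one_div]
      exact inv_anti₀ (by norm_num) h3
    calc Real.exp (-((2 * C1 + K1 * K2 * C0 ^ 2 + C0 + 2) * E)) * nr x
        ≤ (Real.exp (-(C0 * l)) * (1 / 4)) * (3 / 2) :=
          mul_le_mul (h5.trans (mul_le_mul_of_nonneg_left h6 hη0.le)) h4 (nr_nonneg _)
            (by positivity)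
      _ ≤ Real.exp (-(C0 * l)) / 2 := by linarith

end Pool.Agent.Helper66.FS
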